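import Pool.Agent.H25.NM.Mono

/-!
Monotone programs with gates of any fan-in, converted into programs with binary conjunctions.
-/

namespace Pool.Agent.H9.NW

open Finset
open Pool.Agent.H25

/-- Gate `i` is an edge test, or a conjunction or a disjunction of earlier members. -/
def WGate {V : Type} (f : ℕ → SimpleGraph V → Prop) (i : ℕ) : Prop :=
  (∃ u v, ∀ x, f i x ↔ x.Adj u v) ∨
  (∃ S : Finset ℕ, (∀ j ∈ S, j < i) ∧ ∀ x, f i x ↔ ∀ j ∈ S, f j x) ∨
  (∃ S : Finset ℕ, (∀ j ∈ S, j < i) ∧ ∀ x, f i x ↔ ∃ j ∈ S, f j x)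

/-- Programs with gates of any fan-in are converted into programs with binary conjunctions. -/
theorem monoSize_of_wide {V : Type} {s : ℕ} {f : ℕ → SimpleGraph V → Prop}
    (hf : ∀ i < s, WGate f i) {i₀ : ℕ} (hi₀ : i₀ < s) :
    NM.MonoSize (s * (s + 1)) (f i₀) := by
  classical
  -- the sets of the conjunctions
  let IsAnd : ℕ → Finset ℕ → Prop := fun i S => (∀ j ∈ S, j < i) ∧ ∀ F, f i F ↔ ∀ j ∈ S, f j F
  let g : ℕ → SimpleGraph V → Prop := fun a G =>
    if h : ∃ S, IsAnd (a / (s + 1)) S then
      ∀ j ∈ h.choose, j < a % (s + 1) → f j G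
    else f (a / (s + 1)) G
  have hdiv : ∀ i c, c < s + 1 → (i * (s + 1) + c) / (s + 1) = i := by
    intro i c hc
    rw [mul_comm, Nat.mul_add_div (by omega), Nat.div_eq_of_lt hc, add_zero]
  have hmod : ∀ i c, c < s + 1 → (i * (s + 1) + c) % (s + 1) = c := by
    intro i c hc
    rw [mul_comm, Nat.mul_add_mod, Nat.mod_eq_of_lt hc]
  have hg0 : ∀ i, ∀ c' < s + 1, ∀ G, g (i * (s + 1) + c') G ↔
      (if h : ∃ S, IsAnd i S then ∀ j ∈ h.choose, j < c' → f j G else f i G) := by
    intro i c' hc' G
    show (if h : ∃ S, IsAnd ((i * (s + 1) + c') / (s + 1)) S then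
      ∀ j ∈ h.choose, j < (i * (s + 1) + c') % (s + 1) → f j G
      else f ((i * (s + 1) + c') / (s + 1)) G) ↔ _
    rw [hdiv i c' hc', hmod i c' hc']
  -- the value at the last gate of a group
  have hlast : ∀ i < s, ∀ G, g (i * (s + 1) + s) G ↔ f i G := by
    intro i hi G
    rw [hg0 i s (by omega) G]
    by_cases h : ∃ S, IsAnd i S
    · rw [dif_pos h]
      obtain ⟨h1, h2⟩ := h.choose_spec
      rw [h2]
      constructor
      · intro h3 j hj
        exact h3 j hj (by
          have := h1 j hj
          omega)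
      · intro h3 j hj _
        exact h3 j hj
    · rw [dif_neg h]
  refine ⟨g, ?_, i₀ * (s + 1) + s, ?_, fun G => (hlast i₀ hi₀ G).symm⟩
  · intro a ha
    obtain ⟨i, c, hc, rfl⟩ : ∃ i c, c < s + 1 ∧ a = i * (s + 1) + c :=
      ⟨a / (s + 1), a % (s + 1), Nat.mod_lt _ (by omega), (Nat.div_add_mod' a (s + 1)).symm⟩
    have hi : i < s := by
      by_contra hcon
      push Not at hcon
      have : s * (s + 1) ≤ i * (s + 1) := Nat.mul_le_mul_right _ hcon
      omega
    have hg := hg0 i
    have hlt : ∀ j < i, j * (s + 1) + s < i * (s + 1) := by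
      intro j hj
      have : (j + 1) * (s + 1) ≤ i * (s + 1) := Nat.mul_le_mul_right _ hj
      have e : (j + 1) * (s + 1) = j * (s + 1) + s + 1 := by ring
      omega
    by_cases h : ∃ S, IsAnd i S
    · have hg' : ∀ c' < s + 1, ∀ G, g (i * (s + 1) + c') G ↔
          ∀ j ∈ h.choose, j < c' → f j G := by
        intro c' hc' G
        rw [hg c' hc' G, dif_pos h]
      have hS := h.choose_spec.1
      rcases Nat.eq_zero_or_pos c with h0 | hpos
      · subst h0
        refine Or.inr (Or.inl fun G => ?_)
        rw [hg' 0 (by omega)]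
        intro j _ hj
        omega
      · obtain ⟨c', rfl⟩ : ∃ c', c = c' + 1 := ⟨c - 1, by omega⟩
        by_cases hcS : c' ∈ h.choose
        · have hci : c' < i := hS c' hcS
          refine Or.inr (Or.inr (Or.inl ⟨i * (s + 1) + c', c' * (s + 1) + s, by omega,
            by have := hlt c' hci; omega, fun G => ?_⟩))
          rw [hg' (c' + 1) hc, hg' c' (by omega), hlast c' (by omega)]
          constructor
          · intro h1
            exact ⟨fun j hj hj' => h1 j hj (by omega), h1 c' hcS (by omega)⟩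
          · rintro ⟨h1, h2⟩ j hj hj'
            rcases Nat.lt_succ_iff_lt_or_eq.1 hj' with h3 | h3
            · exact h1 j hj h3
            · rw [h3]
              exact h2
        · refine Or.inr (Or.inr (Or.inl ⟨i * (s + 1) + c', i * (s + 1) + c', by omega,
            by omega, fun G => ?_⟩))
          rw [hg' (c' + 1) hc, hg' c' (by omega), and_self_iff]
          constructor
          · intro h1 j hj hj'
            exact h1 j hj (by omega)
          · intro h1 j hj hj'
            rcases Nat.lt_succ_iff_lt_or_eq.1 hj' with h3 | h3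
            · exact h1 j hj h3
            · rw [h3] at hj
              exact absurd hj hcS
    · have hg' : ∀ G, g (i * (s + 1) + c) G ↔ f i G := by
        intro G
        rw [hg c hc G, dif_neg h]
      rcases hf i hi with ⟨u, v, h1⟩ | ⟨S, hS, h1⟩ | ⟨S, hS, h1⟩
      · refine Or.inl ⟨u, v, fun G => ?_⟩
        rw [hg', h1]
      · exact absurd ⟨S, hS, h1⟩ h
      · refine Or.inr (Or.inr (Or.inr ⟨S.image fun j => j * (s + 1) + s, ?_, fun G => ?_⟩))
        · intro j' hj'
          obtain ⟨j, hj, rfl⟩ := Finset.mem_image.1 hj'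
          have := hlt j (hS j hj)
          omega
        · rw [hg', h1]
          constructor
          · rintro ⟨j, hj, h2⟩
            exact ⟨j * (s + 1) + s, Finset.mem_image_of_mem _ hj,
              (hlast j ((hS j hj).trans hi) G).2 h2⟩
          · rintro ⟨j', hj', h2⟩
            obtain ⟨j, hj, rfl⟩ := Finset.mem_image.1 hj'
            exact ⟨j, hj, (hlast j ((hS j hj).trans hi) G).1 h2⟩
  · have h1 : (i₀ + 1) * (s + 1) ≤ s * (s + 1) := Nat.mul_le_mul_right _ hi₀
    have e : (i₀ + 1) * (s + 1) = i₀ * (s + 1) + s + 1 := by ring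
    omega

end Pool.Agent.H9.NW
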