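import Pool.Agent.H9.NW.Defs
import Pool.Agent.H9.NW.Wide
import Pool.Agent.H25.NM.Nc
import Pool.Agent.H25.NM.Count

/-!
Hidden pairs: a circuit whose proofs use few absent pairs is monotone on a random restriction.
-/

namespace Pool.Agent.H9.NW

open Finset
open Pool.Agent.H25 Pool.Agent.H25.NM

set_option linter.unusedSectionVars false

/-- An embedding of the graphs `x` on `V` into graphs on `Fin n`. The pair `e` of vertices of `V`
is represented by one pair `hid e (ρ e)`, whose place `ρ e` is not visible if `e` is absent. -/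
structure Frame (V E R : Type) [DecidableEq E] (n : ℕ) where
  ends : E → V × V
  ne : ∀ e, (ends e).1 ≠ (ends e).2
  gr : (E → R) → SimpleGraph V → SimpleGraph (Fin n)
  hid : E → R → Sym2 (Fin n)
  h1 : ∀ ρ x e, hid e (ρ e) ∈ (gr ρ x).edgeSet ↔ x.Adj (ends e).1 (ends e).2
  h2 : ∀ ρ x x' f, (∀ e, f ≠ hid e (ρ e)) → f ∈ (gr ρ x).edgeSet → f ∈ (gr ρ x').edgeSet
  h3 : ∀ ρ x e r, ¬ x.Adj (ends e).1 (ends e).2 → gr (Function.update ρ e r) x = gr ρ x
  h4 : ∀ e r e' r', hid e r = hid e' r' → e = e' ∧ r = r'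

theorem Circuit.Proof.mono {n s : ℕ} {C : Circuit n s} {G : SimpleGraph (Fin n)}
    {N N' : Finset (Sym2 (Fin n))} (h : N ⊆ N') {i : Fin s} (hp : C.Proof G N i) :
    C.Proof G N' i := by
  induction hp with
  | leaf h1 h2 h3 => exact .leaf h1 h2 fun e he => (h3 e he).imp_right fun h' => h h'
  | conj h1 h2 _ ih => exact .conj h1 h2 ih
  | disj h1 h2 h3 _ ih => exact .disj h1 h2 h3 ih

section

variable {V E R : Type} [DecidableEq E] {n s : ℕ}
  (f : Frame V E R n) (C : Circuit n s)

open Classical in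
/-- The pairs which do not represent a pair of `V`. -/
noncomputable def Frame.vis (ρ : E → R) : Finset (Sym2 (Fin n)) :=
  univ.filter fun a => ∀ e, a ≠ f.hid e (ρ e)

theorem Frame.mem_vis {ρ : E → R} {a : Sym2 (Fin n)} :
    a ∈ f.vis ρ ↔ ∀ e, a ≠ f.hid e (ρ e) := by
  unfold Frame.vis
  simp

theorem Frame.proof_vis {ρ : E → R} {x : SimpleGraph V} {N : Finset (Sym2 (Fin n))} {i : Fin s}
    (hp : C.Proof (f.gr ρ x) N i)
    (hN : ∀ e, ¬ x.Adj (f.ends e).1 (f.ends e).2 → f.hid e (ρ e) ∉ N) :
    C.Proof (f.gr ρ x) (f.vis ρ) i := by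
  induction hp with
  | leaf h1 h2 h3 =>
    refine .leaf h1 h2 fun a ha => ?_
    rcases h3 a ha with h | h
    · exact Or.inl h
    · by_cases hh : ∃ e, a = f.hid e (ρ e)
      · obtain ⟨e, rfl⟩ := hh
        left
        rw [f.h1]
        by_contra hcon
        exact hN e hcon h
      · push Not at hh
        exact Or.inr ((f.mem_vis).2 hh)
  | conj h1 h2 _ ih => exact .conj h1 h2 ih
  | disj h1 h2 h3 _ ih => exact .disj h1 h2 h3 ih

theorem Frame.leaf_iff {ρ : E → R} {x : SimpleGraph V} {i : Fin s} (hi : i ∈ C.leaf) :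
    C.Proof (f.gr ρ x) (f.vis ρ) i ↔
      C.test i (f.gr ρ ⊤) ∧ ∀ e, f.hid e (ρ e) ∈ C.reads i → x.Adj (f.ends e).1 (f.ends e).2 := by
  have key : (∀ e, f.hid e (ρ e) ∈ C.reads i → x.Adj (f.ends e).1 (f.ends e).2) →
      ∀ a ∈ C.reads i, (a ∈ (f.gr ρ x).edgeSet ↔ a ∈ (f.gr ρ ⊤).edgeSet) := by
    intro h a ha
    by_cases hh : ∃ e, a = f.hid e (ρ e)
    · obtain ⟨e, rfl⟩ := hh
      rw [f.h1, f.h1]
      exact ⟨fun _ => by rw [SimpleGraph.top_adj]; exact f.ne e, fun _ => h e ha⟩
    · push Not at hh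
      exact ⟨f.h2 ρ _ _ a hh, f.h2 ρ _ _ a hh⟩
  constructor
  · intro h
    cases h with
    | leaf h1 h2 h3 =>
      have hr : ∀ e, f.hid e (ρ e) ∈ C.reads i → x.Adj (f.ends e).1 (f.ends e).2 := by
        intro e he
        rcases h3 _ he with h | h
        · exact (f.h1 ρ x e).1 h
        · exact absurd rfl ((f.mem_vis).1 h e)
      exact ⟨C.test_of_eq i _ _ (key hr) h2, hr⟩
    | conj h1 _ _ => exact absurd hi h1
    | disj h1 _ _ _ => exact absurd hi h1
  · rintro ⟨h1, h2⟩
    refine .leaf hi (C.test_of_eq i _ _ (fun a ha => (key h2 a ha).symm) h1) fun a ha => ?_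
    by_cases hh : ∃ e, a = f.hid e (ρ e)
    · obtain ⟨e, rfl⟩ := hh
      exact Or.inl ((f.h1 ρ x e).2 (h2 e ha))
    · push Not at hh
      exact Or.inr ((f.mem_vis).2 hh)

/-- The restricted circuit is a monotone program. -/
theorem Frame.monoSize [Fintype E] (ρ : E → R) (i : Fin s) :
    MonoSize ((Fintype.card E + s) * (Fintype.card E + s + 1))
      fun x => C.Proof (f.gr ρ x) (f.vis ρ) i := by
  classical
  set K := Fintype.card E with hK
  let en : Fin K ≃ E := (Fintype.equivFin E).symm
  let g : ℕ → SimpleGraph V → Prop := fun j x =>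
    if h : j < K then x.Adj (f.ends (en ⟨j, h⟩)).1 (f.ends (en ⟨j, h⟩)).2
    else if h' : j - K < s then C.Proof (f.gr ρ x) (f.vis ρ) ⟨j - K, h'⟩ else False
  have hg1 : ∀ (e : E) x, g (en.symm e).1 x ↔ x.Adj (f.ends e).1 (f.ends e).2 := by
    intro e x
    show (if h : (en.symm e).1 < K then _ else _) ↔ _
    rw [dif_pos (en.symm e).2]
    have : en ⟨(en.symm e).1, (en.symm e).2⟩ = e := by
      rw [Fin.eta, Equiv.apply_symm_apply]
    rw [this]
  have hg2 : ∀ (j : Fin s) x, g (K + j.1) x ↔ C.Proof (f.gr ρ x) (f.vis ρ) j := by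
    intro j x
    show (if h : K + j.1 < K then _ else (if h' : K + j.1 - K < s then
      C.Proof (f.gr ρ x) (f.vis ρ) ⟨K + j.1 - K, h'⟩ else False)) ↔ _
    have h0 : ¬ K + j.1 < K := by omega
    have h1 : K + j.1 - K < s := by
      have := j.2
      omega
    rw [dif_neg h0, dif_pos h1]
    have : (⟨K + j.1 - K, h1⟩ : Fin s) = j := by
      ext
      simp
    rw [this]
  have hg : ∀ a < K + s, WGate g a := by
    intro a ha
    by_cases haK : a < K
    · refine Or.inl ⟨(f.ends (en ⟨a, haK⟩)).1, (f.ends (en ⟨a, haK⟩)).2, fun x => ?_⟩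
      have := hg1 (en ⟨a, haK⟩) x
      rw [Equiv.symm_apply_apply] at this
      exact this
    · obtain ⟨j, rfl⟩ : ∃ j : Fin s, a = K + j.1 :=
        ⟨⟨a - K, by omega⟩, by simp only; omega⟩
      by_cases hl : j ∈ C.leaf
      · by_cases ht : C.test j (f.gr ρ ⊤)
        · refine Or.inr (Or.inl ⟨(univ.filter fun e => f.hid e (ρ e) ∈ C.reads j).image
            fun e => (en.symm e).1, ?_, fun x => ?_⟩)
          · intro b hb
            obtain ⟨e, _, rfl⟩ := Finset.mem_image.1 hb
            have := (en.symm e).2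
            omega
          · rw [hg2, f.leaf_iff C hl]
            constructor
            · rintro ⟨_, h2⟩ b hb
              obtain ⟨e, he, rfl⟩ := Finset.mem_image.1 hb
              exact (hg1 e x).2 (h2 e (Finset.mem_filter.1 he).2)
            · intro h
              refine ⟨ht, fun e he => (hg1 e x).1 (h _ ?_)⟩
              exact Finset.mem_image_of_mem _ (Finset.mem_filter.2 ⟨Finset.mem_univ _, he⟩)
        · refine Or.inr (Or.inr ⟨∅, by simp, fun x => ?_⟩)
          rw [hg2, f.leaf_iff C hl]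
          constructor
          · rintro ⟨h, _⟩
            exact absurd h ht
          · rintro ⟨b, hb, _⟩
            exact absurd hb (Finset.notMem_empty b)
      · by_cases hc : j ∈ C.conj
        · refine Or.inr (Or.inl ⟨(C.ins j).image fun b => K + b.1, ?_, fun x => ?_⟩)
          · intro b hb
            obtain ⟨d, hd, rfl⟩ := Finset.mem_image.1 hb
            have : d.1 < j.1 := C.ins_lt j d hd
            omega
          · rw [hg2]
            constructor
            · intro h b hb
              obtain ⟨d, hd, rfl⟩ := Finset.mem_image.1 hb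
              rw [hg2]
              cases h with
              | leaf h1 _ _ => exact absurd h1 hl
              | conj _ _ h3 => exact h3 d hd
              | disj _ h2 _ _ => exact absurd hc h2
            · intro h
              refine .conj hl hc fun b hb => (hg2 b x).1 (h _ ?_)
              exact Finset.mem_image_of_mem (fun b : Fin s => K + b.1) hb
        · refine Or.inr (Or.inr ⟨(C.ins j).image fun b => K + b.1, ?_, fun x => ?_⟩)
          · intro b hb
            obtain ⟨d, hd, rfl⟩ := Finset.mem_image.1 hb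
            have : d.1 < j.1 := C.ins_lt j d hd
            omega
          · rw [hg2]
            constructor
            · intro h
              cases h with
              | leaf h1 _ _ => exact absurd h1 hl
              | conj _ h2 _ => exact absurd h2 hc
              | @disj b _ _ _ h3 h4 =>
                exact ⟨K + _, Finset.mem_image_of_mem (fun b : Fin s => K + b.1) h3,
                  (hg2 _ x).2 h4⟩
            · rintro ⟨b, hb, h⟩
              obtain ⟨d, hd, rfl⟩ := Finset.mem_image.1 hb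
              exact .disj hl hc hd ((hg2 d x).1 h)
  have hlt : K + i.1 < K + s := by
    have := i.2
    omega
  have h := monoSize_of_wide hg hlt
  have e : (fun x => C.Proof (f.gr ρ x) (f.vis ρ) i) = g (K + i.1) := by
    funext x
    exact propext (hg2 i x).symm
  rw [e]
  exact h

/-- For most places a set of few absent pairs misses the hidden pairs. -/
theorem Frame.exists_place [Fintype E] [Fintype R] [Nonempty R] {P : Type} [Fintype P]
    (pos : P → SimpleGraph V) (N₀ : SimpleGraph (Fin n) → Finset (Sym2 (Fin n))) {w : ℕ}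
    (hw : ∀ ρ p, (N₀ (f.gr ρ (pos p))).card ≤ w) :
    ∃ ρ : E → R, nc (fun p : P => ∃ e, ¬ (pos p).Adj (f.ends e).1 (f.ends e).2 ∧
      f.hid e (ρ e) ∈ N₀ (f.gr ρ (pos p))) * Fintype.card R ≤ w * Fintype.card P := by
  classical
  by_contra hcon
  push Not at hcon
  let bad : (E → R) → P → Prop := fun ρ p => ∃ e, ¬ (pos p).Adj (f.ends e).1 (f.ends e).2 ∧
      f.hid e (ρ e) ∈ N₀ (f.gr ρ (pos p))
  -- the number of bad pairs
  have hfix : ∀ p : P, nc (fun ρ : E → R => bad ρ p) * Fintype.card R ≤
      w * Fintype.card (E → R) := by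
    intro p
    let A : Finset E := univ.filter fun e => ¬ (pos p).Adj (f.ends e).1 (f.ends e).2
    let h : E → (E → R) → ℕ := fun e ρ => if f.hid e (ρ e) ∈ N₀ (f.gr ρ (pos p)) then 1 else 0
    have h1 : nc (fun ρ : E → R => bad ρ p) ≤ ∑ e ∈ A, ∑ ρ : E → R, h e ρ := by
      refine le_trans (nc_mono (q := fun ρ => ∃ e ∈ A, f.hid e (ρ e) ∈ N₀ (f.gr ρ (pos p))) ?_) ?_
      · rintro ρ ⟨e, he, h'⟩
        exact ⟨e, Finset.mem_filter.2 ⟨Finset.mem_univ _, he⟩, h'⟩
      · refine (nc_bex_le A fun e (ρ : E → R) => f.hid e (ρ e) ∈ N₀ (f.gr ρ (pos p))).trans ?_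
        refine Finset.sum_le_sum fun e _ => le_of_eq ?_
        rw [nc_eq, Finset.card_filter]
    have h2 : ∀ e ∈ A, (∑ ρ : E → R, h e ρ) * Fintype.card R =
        ∑ ρ : E → R, ∑ y : R, if f.hid e y ∈ N₀ (f.gr ρ (pos p)) then 1 else 0 := by
      intro e he
      have h3 := sum_update (Ω := R) e (h e)
      rw [smul_eq_mul, mul_comm] at h3
      rw [← h3]
      refine Finset.sum_congr rfl fun ρ _ => Finset.sum_congr rfl fun y _ => ?_
      show (if f.hid e (Function.update ρ e y e) ∈
        N₀ (f.gr (Function.update ρ e y) (pos p)) then 1 else 0) = _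
      rw [Function.update_self, f.h3 ρ (pos p) e y (Finset.mem_filter.1 he).2]
    calc nc (fun ρ : E → R => bad ρ p) * Fintype.card R
        ≤ (∑ e ∈ A, ∑ ρ : E → R, h e ρ) * Fintype.card R := Nat.mul_le_mul_right _ h1
      _ = ∑ e ∈ A, ∑ ρ : E → R, ∑ y : R,
            (if f.hid e y ∈ N₀ (f.gr ρ (pos p)) then 1 else 0) := by
          rw [Finset.sum_mul]
          exact Finset.sum_congr rfl h2
      _ = ∑ ρ : E → R, ∑ e ∈ A, ∑ y : R,
            (if f.hid e y ∈ N₀ (f.gr ρ (pos p)) then 1 else 0) := Finset.sum_comm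
      _ ≤ ∑ _ρ : E → R, w := by
          refine Finset.sum_le_sum fun ρ _ => ?_
          refine le_trans ?_ (hw ρ p)
          rw [← Finset.sum_product', ← Finset.card_filter]
          refine Finset.card_le_card_of_injOn (fun q : E × R => f.hid q.1 q.2) ?_ ?_
          · intro q hq
            exact (Finset.mem_filter.1 hq).2
          · intro q _ q' _ hqq
            obtain ⟨e1, e2⟩ := f.h4 _ _ _ _ hqq
            exact Prod.ext e1 e2
      _ = w * Fintype.card (E → R) := by
          rw [Finset.sum_const, Finset.card_univ, smul_eq_mul, mul_comm]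
  have hne : 0 < Fintype.card (E → R) := Fintype.card_pos
  have hswap : ∑ ρ : E → R, nc (fun p : P => bad ρ p) = ∑ p : P, nc (fun ρ : E → R => bad ρ p) := by
    have e1 : ∀ ρ : E → R, nc (fun p : P => bad ρ p) = ∑ p : P, if bad ρ p then 1 else 0 := by
      intro ρ
      rw [nc_eq, Finset.card_filter]
    have e2 : ∀ p : P, nc (fun ρ : E → R => bad ρ p) = ∑ ρ : E → R, if bad ρ p then 1 else 0 := by
      intro p
      rw [nc_eq, Finset.card_filter]
    rw [Finset.sum_congr rfl fun ρ _ => e1 ρ, Finset.sum_congr rfl fun p _ => e2 p]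
    exact Finset.sum_comm
  have hlow : w * Fintype.card P * Fintype.card (E → R) <
      (∑ ρ : E → R, nc (fun p : P => bad ρ p)) * Fintype.card R := by
    rw [Finset.sum_mul]
    calc w * Fintype.card P * Fintype.card (E → R) = ∑ _ρ : E → R, w * Fintype.card P := by
          rw [Finset.sum_const, Finset.card_univ, smul_eq_mul, mul_comm]
      _ < ∑ ρ : E → R, nc (fun p : P => bad ρ p) * Fintype.card R := by
          refine Finset.sum_lt_sum_of_nonempty ?_ fun ρ _ => hcon ρ
          rw [← Finset.card_pos, Finset.card_univ]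
          exact hne
  rw [hswap] at hlow
  have hup : (∑ p : P, nc (fun ρ : E → R => bad ρ p)) * Fintype.card R ≤
      w * Fintype.card P * Fintype.card (E → R) := by
    rw [Finset.sum_mul]
    refine (Finset.sum_le_sum fun p _ => hfix p).trans (le_of_eq ?_)
    rw [Finset.sum_const, Finset.card_univ, smul_eq_mul]
    ring
  omega

end

end Pool.Agent.H9.NW
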