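import Pool.Agent.H9.NW.Edges
import Pool.Agent.H25.NP.Dense
import Pool.Agent.H25.NP.Fin

/-!
The finite form of the bound.
-/

namespace Pool.Agent.H9.NW

open Finset
open Pool.Agent.H25 Pool.Agent.H25.NM

set_option linter.unusedSectionVars false

/-- Dense random graphs seldom contain a large clique. -/
theorem nc_dense_clique {V : Type} [Fintype V] [DecidableEq V] (Q c : ℕ) [NeZero Q] :
    nc (fun ω : Sym2 V → Fin Q => ¬ (gr (NP.nz Q) ω : SimpleGraph V).CliqueFree c) *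
      Q ^ (c.choose 2) ≤ (Fintype.card V) ^ c * (Q - 1) ^ (c.choose 2) *
        Fintype.card (Sym2 V → Fin Q) := by
  classical
  have h1 : nc (fun ω : Sym2 V → Fin Q => ¬ (gr (NP.nz Q) ω : SimpleGraph V).CliqueFree c) ≤
      ∑ T ∈ (univ : Finset V).powersetCard c,
        nc (fun ω : Sym2 V → Fin Q => ∀ e ∈ ed T, ω e ∈ NP.nz Q) := by
    refine le_trans (nc_mono (q := fun ω => ∃ T ∈ (univ : Finset V).powersetCard c,
      ∀ e ∈ ed T, ω e ∈ NP.nz Q) ?_) (nc_bex_le _ _)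
    intro ω hω
    rw [SimpleGraph.CliqueFree] at hω
    push Not at hω
    obtain ⟨T, hT⟩ := hω
    refine ⟨T, Finset.mem_powersetCard.2 ⟨Finset.subset_univ _, hT.card_eq⟩, ?_⟩
    intro e he
    induction e using Sym2.ind with
    | _ y z =>
      obtain ⟨hne, hy, hz⟩ := mem_ed.1 he
      exact (hT.isClique hy hz hne).2
  have h2 : ∀ T ∈ (univ : Finset V).powersetCard c,
      nc (fun ω : Sym2 V → Fin Q => ∀ e ∈ ed T, ω e ∈ NP.nz Q) * Q ^ (c.choose 2) =
        (Q - 1) ^ (c.choose 2) * Fintype.card (Sym2 V → Fin Q) := by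
    intro T hT
    have h3 := nc_forall_mem_gen (A₀ := Fin Q) (ed T) fun _ => NP.nz Q
    rw [card_ed, (Finset.mem_powersetCard.1 hT).2, Fintype.card_fin, Finset.prod_const, card_ed,
      (Finset.mem_powersetCard.1 hT).2, NP.card_nz] at h3
    rw [Fintype.card_fun, Fintype.card_fin]
    exact h3
  calc _ ≤ (∑ T ∈ (univ : Finset V).powersetCard c,
        nc (fun ω : Sym2 V → Fin Q => ∀ e ∈ ed T, ω e ∈ NP.nz Q)) * Q ^ (c.choose 2) :=
        Nat.mul_le_mul_right _ h1
    _ = ∑ T ∈ (univ : Finset V).powersetCard c,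
        (Q - 1) ^ (c.choose 2) * Fintype.card (Sym2 V → Fin Q) := by
        rw [Finset.sum_mul]
        exact Finset.sum_congr rfl h2
    _ = (Fintype.card V).choose c * ((Q - 1) ^ (c.choose 2) * Fintype.card (Sym2 V → Fin Q)) := by
        rw [Finset.sum_const, Finset.card_powersetCard, Finset.card_univ, smul_eq_mul]
    _ ≤ (Fintype.card V) ^ c * ((Q - 1) ^ (c.choose 2) * Fintype.card (Sym2 V → Fin Q)) :=
        Nat.mul_le_mul_right _ (Nat.choose_le_pow _ _)
    _ = _ := by ring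

/-- **Finite form.** -/
theorem core {c b t u r n a w s Q m h : ℕ} [NeZero Q]
    (hm : 2 ≤ m) (hh : 1 ≤ h) (hQ : m * m ≤ Q) (hb : 32 * (h * m) ≤ b) (ht : 0 < t)
    (hn : c * (c * (b * t)) + u + 2 * r ≤ n) (h3 : 3 ≤ c * c + u)
    (ha1 : (c * (c * (b * t)) + u) ^ 2 ≤ a) (ha2 : a ≤ r * r) (hw : 2 * w ≤ t * t)
    (hcl : 8 * (c * b) ^ c * (Q - 1) ^ (c.choose 2) ≤ Q ^ (c.choose 2))
    {S : ℕ} (hS : (c * b * (c * b) + s) * (c * b * (c * b) + s + 1) ≤ S)
    (he1 : 8 * (S * ((m + 1) ^ 2 * 2 ^ m)) ≤ 32 ^ (m + 1))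
    (he2 : 8 * (S * (c * b + 1) ^ m) ≤ 2 ^ h)
    (C : Circuit n s) (out : Fin s)
    (hsound : ∀ G : SimpleGraph (Fin n), a ≤ G.edgeSet.ncard →
      G.edgeSet.ncard ≤ a + c * b * (c * b) → G.CliqueFree (c * c + u) → ¬ C.Proof G univ out)
    (hcomp : ∀ G : SimpleGraph (Fin n), a ≤ G.edgeSet.ncard →
      G.edgeSet.ncard ≤ a + c * b * (c * b) → ¬ G.CliqueFree (c * c + u) →
      ∃ N : Finset (Sym2 (Fin n)), N.card ≤ w ∧ C.Proof G N out) : False := by
  classical
  obtain ⟨J, hJ⟩ := exists_filling (c := c) (b := b) (t := t) (u := u) (r := r) ha1 ha2 ht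
  obtain ⟨ι⟩ : Nonempty (Vx c b t u r ↪ Fin n) := by
    refine Function.Embedding.nonempty_of_card_le ?_
    simp only [Fintype.card_sum, Fintype.card_prod, Fintype.card_fin]
    omega
  set f := frame J ι with hf
  have hcK : Fintype.card (Pr c b) ≤ c * b * (c * b) := by
    refine (Fintype.card_subtype_le _).trans ?_
    simp only [Fintype.card_prod, Fintype.card_fin]
    exact le_refl _
  have hwin : ∀ (ρ : Pr c b → Fin t × Fin t) (x : SimpleGraph (Fin c × Fin b)),
      a ≤ (f.gr ρ x).edgeSet.ncard ∧ (f.gr ρ x).edgeSet.ncard ≤ a + c * b * (c * b) := by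
    intro ρ x
    obtain ⟨g1, g2⟩ := frame_edges ι hJ ρ x
    exact ⟨g1, g2.trans (Nat.add_le_add_left hcK _)⟩
  -- the absent pairs used
  let N₀ : SimpleGraph (Fin n) → Finset (Sym2 (Fin n)) := fun G =>
    if h : ∃ N : Finset (Sym2 (Fin n)), N.card ≤ w ∧ C.Proof G N out then h.choose else ∅
  have hN₀ : ∀ G, (N₀ G).card ≤ w := by
    intro G
    show (if h : ∃ N : Finset (Sym2 (Fin n)), N.card ≤ w ∧ C.Proof G N out then h.choose
      else ∅ : Finset (Sym2 (Fin n))).card ≤ w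
    by_cases h : ∃ N : Finset (Sym2 (Fin n)), N.card ≤ w ∧ C.Proof G N out
    · rw [dif_pos h]
      exact h.choose_spec.1
    · rw [dif_neg h]
      simp
  have hN₀' : ∀ G, (∃ N : Finset (Sym2 (Fin n)), N.card ≤ w ∧ C.Proof G N out) →
      C.Proof G (N₀ G) out := by
    intro G h
    show C.Proof G (if h : ∃ N : Finset (Sym2 (Fin n)), N.card ≤ w ∧ C.Proof G N out
      then h.choose else ∅) out
    rw [dif_pos h]
    exact h.choose_spec.2
  have : Nonempty (Fin t × Fin t) := ⟨(⟨0, ht⟩, ⟨0, ht⟩)⟩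
  obtain ⟨ρ, hρ⟩ := f.exists_place (fun p : Fin c → Fin b => cq (tr p)) N₀ (w := w)
    fun ρ p => hN₀ _
  rw [Fintype.card_prod, Fintype.card_fin] at hρ
  set F : SimpleGraph (Fin c × Fin b) → Prop := fun x => C.Proof (f.gr ρ x) (f.vis ρ) out with hF
  have hsize : MonoSize S F := by
    have h1 := f.monoSize C ρ out
    obtain ⟨g, hg, i, hi, hgi⟩ := h1
    set K := Fintype.card (Pr c b) with hK
    have hle : (K + s) * (K + s + 1) ≤ S :=
      le_trans (Nat.mul_le_mul (by omega) (by omega)) hS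
    -- pad the program
    refine ⟨fun j x => if j < (K + s) * (K + s + 1) then g j x else False, ?_, i, hi.trans_le hle,
      fun x => ?_⟩
    · intro j _
      by_cases hj : j < (K + s) * (K + s + 1)
      · rcases hg j hj with ⟨y, z, h1⟩ | h1 | ⟨j', k', hj', hk', h1⟩ | ⟨T, hT, h1⟩
        · exact Or.inl ⟨y, z, fun x => by simp only [if_pos hj]; exact h1 x⟩
        · exact Or.inr (Or.inl fun x => by simp only [if_pos hj]; exact h1 x)
        · refine Or.inr (Or.inr (Or.inl ⟨j', k', hj', hk', fun x => ?_⟩))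
          simp only [if_pos hj, if_pos (hj'.trans hj), if_pos (hk'.trans hj)]
          exact h1 x
        · refine Or.inr (Or.inr (Or.inr ⟨T, hT, fun x => ?_⟩))
          simp only [if_pos hj]
          rw [h1]
          refine exists_congr fun k' => and_congr_right fun hk' => ?_
          simp only [if_pos ((hT k' hk').trans hj)]
      · exact MGate.of_false fun x => by simp only [if_neg hj, not_false_iff]
    · simp only [if_pos hi]
      exact hgi x
  -- positive graphs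
  have hP0 : 0 < b := by
    have : 1 ≤ h * m := Nat.one_le_iff_ne_zero.2 (Nat.mul_ne_zero (by omega) (by omega))
    omega
  have : Nonempty (Fin b) := ⟨⟨0, hP0⟩⟩
  set P := Fintype.card (Fin c → Fin b) with hP
  have hPpos : 0 < P := Fintype.card_pos
  have hgood : P ≤ 2 * nc (fun p : Fin c → Fin b => F (cq (tr p))) := by
    have h1 : nc (fun p : Fin c → Fin b => ¬ F (cq (tr p))) * (t * t) ≤ w * P := by
      refine le_trans (Nat.mul_le_mul_right _ (nc_mono fun p hp => ?_)) hρ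
      by_contra hcon
      push Not at hcon
      refine hp ?_
      refine f.proof_vis C (hN₀' _ ?_) hcon
      obtain ⟨g1, g2⟩ := hwin ρ (cq (tr p))
      exact hcomp _ g1 g2 (frame_planted ι h3 ht p)
    have h2 := nc_add_nc_not fun p : Fin c → Fin b => F (cq (tr p))
    rw [← hP] at h2
    have h3 : 2 * nc (fun p : Fin c → Fin b => ¬ F (cq (tr p))) ≤ P := by
      have htt : 0 < t * t := Nat.mul_pos ht ht
      refine Nat.le_of_mul_le_mul_right ?_ htt
      calc 2 * nc (fun p : Fin c → Fin b => ¬ F (cq (tr p))) * (t * t)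
          = 2 * (nc (fun p : Fin c → Fin b => ¬ F (cq (tr p))) * (t * t)) := by ring
        _ ≤ 2 * (w * P) := Nat.mul_le_mul_left _ h1
        _ = 2 * w * P := by ring
        _ ≤ t * t * P := Nat.mul_le_mul_right _ hw
        _ = P * (t * t) := by ring
    omega
  -- negative graphs
  set Ω := Fintype.card (Sym2 (Fin c × Fin b) → Fin Q) with hΩ
  have hΩpos : 0 < Ω := Fintype.card_pos
  have hneg : 8 * nc (fun ω : Sym2 (Fin c × Fin b) → Fin Q => F (gr (NP.nz Q) ω)) ≤ Ω := by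
    have h1 : nc (fun ω : Sym2 (Fin c × Fin b) → Fin Q => F (gr (NP.nz Q) ω)) ≤
        nc (fun ω : Sym2 (Fin c × Fin b) → Fin Q =>
          ¬ (gr (NP.nz Q) ω : SimpleGraph (Fin c × Fin b)).CliqueFree c) := by
      refine nc_mono fun ω hω hfree => ?_
      obtain ⟨g1, g2⟩ := hwin ρ (gr (NP.nz Q) ω)
      exact hsound _ g1 g2 (frame_cliqueFree ι h3 hfree) (Circuit.Proof.mono (Finset.subset_univ _) hω)
    have h2 := nc_dense_clique (V := Fin c × Fin b) Q c
    rw [Fintype.card_prod, Fintype.card_fin, Fintype.card_fin, ← hΩ] at h2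
    have hQp : 0 < Q ^ (c.choose 2) := Nat.pow_pos (Nat.pos_of_ne_zero (NeZero.ne Q))
    refine Nat.le_of_mul_le_mul_right ?_ hQp
    calc 8 * nc (fun ω : Sym2 (Fin c × Fin b) → Fin Q => F (gr (NP.nz Q) ω)) * Q ^ (c.choose 2)
        ≤ 8 * nc (fun ω : Sym2 (Fin c × Fin b) → Fin Q =>
          ¬ (gr (NP.nz Q) ω : SimpleGraph (Fin c × Fin b)).CliqueFree c) * Q ^ (c.choose 2) :=
          Nat.mul_le_mul_right _ (Nat.mul_le_mul_left _ h1)
      _ = 8 * (nc (fun ω : Sym2 (Fin c × Fin b) → Fin Q =>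
          ¬ (gr (NP.nz Q) ω : SimpleGraph (Fin c × Fin b)).CliqueFree c) * Q ^ (c.choose 2)) := by
          ring
      _ ≤ 8 * ((c * b) ^ c * (Q - 1) ^ (c.choose 2) * Ω) := Nat.mul_le_mul_left _ h2
      _ = (8 * (c * b) ^ c * (Q - 1) ^ (c.choose 2)) * Ω := by ring
      _ ≤ Q ^ (c.choose 2) * Ω := Nat.mul_le_mul_right _ hcl
      _ = Ω * Q ^ (c.choose 2) := by ring
  -- the block lemma
  have hB := NP.blockHyp_dense (k := c) (w := b) (Q := Q) m h (by omega) hh hQ hb
  have hmain := hB.main hm hsize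
  rw [nc_prod_and (fun p : Fin c → Fin b => F (cq (tr p)))
    fun ω : Sym2 (Fin c × Fin b) → Fin Q => ¬ F (gr (NP.nz Q) ω), ← hP, ← hΩ] at hmain
  have hnot := nc_add_nc_not fun ω : Sym2 (Fin c × Fin b) → Fin Q => F (gr (NP.nz Q) ω)
  rw [← hΩ] at hnot
  -- the error term
  set η : ℝ := (1 / 32 : ℝ) ^ (m + 1) with hη
  have hε : (S : ℝ) * ((m + 1) ^ 2 * 2 ^ m * η + small (Fin c × Fin b) m / ((2 ^ h : ℕ) : ℝ)) ≤
      1 / 4 := by
    have g1 : (S : ℝ) * ((m + 1) ^ 2 * 2 ^ m * η) ≤ 1 / 8 := by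
      have e1 : (8 : ℝ) * ((S : ℝ) * ((m + 1) ^ 2 * 2 ^ m)) ≤ 32 ^ (m + 1) := by
        exact_mod_cast he1
      have e2 : η * 32 ^ (m + 1) = 1 := by
        rw [hη, ← mul_pow]
        norm_num
      have e3 : (0 : ℝ) ≤ η := by
        rw [hη]
        positivity
      have e4 := mul_le_mul_of_nonneg_left e1 e3
      rw [e2] at e4
      linarith
    have g2 : (S : ℝ) * (small (Fin c × Fin b) m / ((2 ^ h : ℕ) : ℝ)) ≤ 1 / 8 := by
      have e3 := NP.small_le (Fin c × Fin b) m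
      rw [Fintype.card_prod, Fintype.card_fin, Fintype.card_fin] at e3
      have e4 : 8 * (S * small (Fin c × Fin b) m) ≤ 2 ^ h :=
        le_trans (Nat.mul_le_mul_left _ (Nat.mul_le_mul_left _ e3)) he2
      have e5 : (8 : ℝ) * ((S : ℝ) * small (Fin c × Fin b) m) ≤ ((2 ^ h : ℕ) : ℝ) := by
        exact_mod_cast e4
      have e6 : (0 : ℝ) < ((2 ^ h : ℕ) : ℝ) := by positivity
      rw [← mul_div_assoc, div_le_iff₀ e6]
      linarith
    have g3 : (S : ℝ) * ((m + 1) ^ 2 * 2 ^ m * η + small (Fin c × Fin b) m / ((2 ^ h : ℕ) : ℝ)) =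
        (S : ℝ) * ((m + 1) ^ 2 * 2 ^ m * η) +
          (S : ℝ) * (small (Fin c × Fin b) m / ((2 ^ h : ℕ) : ℝ)) := by ring
    rw [g3]
    linarith
  -- conclusion
  set X := nc (fun p : Fin c → Fin b => F (cq (tr p))) with hX
  set Y := nc (fun ω : Sym2 (Fin c × Fin b) → Fin Q => F (gr (NP.nz Q) ω)) with hY
  set Y' := nc (fun ω : Sym2 (Fin c × Fin b) → Fin Q => ¬ F (gr (NP.nz Q) ω)) with hY'
  have hPr : (0 : ℝ) < P := by exact_mod_cast hPpos
  have hΩr : (0 : ℝ) < Ω := by exact_mod_cast hΩpos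
  have k1 : (P : ℝ) ≤ 2 * X := by exact_mod_cast hgood
  have k2 : (8 : ℝ) * Y ≤ Ω := by exact_mod_cast hneg
  have k3 : (Y : ℝ) + Y' = Ω := by exact_mod_cast hnot
  have k4 : (X : ℝ) * Y' ≤ P * Y + 1 / 4 * (P * Ω) := by
    push_cast at hmain
    refine hmain.trans ?_
    have := mul_le_mul_of_nonneg_right hε (by positivity : (0 : ℝ) ≤ (P : ℝ) * Ω)
    push_cast at this
    linarith
  have k5 : (7 / 8 : ℝ) * Ω ≤ Y' := by linarith
  have k6 : (P / 2 : ℝ) * (7 / 8 * Ω) ≤ X * Y' :=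
    mul_le_mul (by linarith) k5 (by positivity) (by positivity)
  have k7 : (P : ℝ) * Y ≤ P * (Ω / 8) := mul_le_mul_of_nonneg_left (by linarith) hPr.le
  have k8 : (0 : ℝ) < P * Ω := by positivity
  nlinarith

end Pool.Agent.H9.NW
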