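import Mathlib

/-!
# Circuits with arbitrary tests, and the absent pairs used by their proofs
-/

namespace Pool.Agent.H9.NW

/-- A circuit with `s` gates, in topological order, for properties of graphs on `Fin n`.
The gates in `leaf` are arbitrary tests: `test i` may be any property of the adjacency of the
pairs in `reads i`. The other gates are conjunctions (if they are in `conj`) or disjunctions of
the earlier gates in `ins i`, of any fan-in. -/
structure Circuit (n s : ℕ) where
  leaf : Finset (Fin s)
  conj : Finset (Fin s)
  reads : Fin s → Finset (Sym2 (Fin n))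
  test : Fin s → SimpleGraph (Fin n) → Prop
  ins : Fin s → Finset (Fin s)
  test_of_eq : ∀ i, ∀ G H : SimpleGraph (Fin n),
    (∀ e ∈ reads i, e ∈ G.edgeSet ↔ e ∈ H.edgeSet) → test i G → test i H
  ins_lt : ∀ i, ∀ j ∈ ins i, j < i

/-- `C.Proof G N i`: gate `i` has a proof that it is true for `G` in which all pairs read by the
tests are edges of `G` or belong to `N`. A test is proved if it is true and reads only such
pairs, a conjunction if all its inputs are proved, a disjunction if some input is proved.
Gate `i` is true for `G` if it has a proof for `N = univ`. -/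
inductive Circuit.Proof {n s : ℕ} (C : Circuit n s) (G : SimpleGraph (Fin n))
    (N : Finset (Sym2 (Fin n))) : Fin s → Prop
  | leaf {i : Fin s} : i ∈ C.leaf → C.test i G → (∀ e ∈ C.reads i, e ∈ G.edgeSet ∨ e ∈ N) →
      C.Proof G N i
  | conj {i : Fin s} : i ∉ C.leaf → i ∈ C.conj → (∀ j ∈ C.ins i, C.Proof G N j) →
      C.Proof G N i
  | disj {i j : Fin s} : i ∉ C.leaf → i ∉ C.conj → j ∈ C.ins i → C.Proof G N j →
      C.Proof G N i

end Pool.Agent.H9.NW
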