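import Pool.Agent.H9.NW.Frame

/-!
Cliques and edges of the concrete graphs.
-/

namespace Pool.Agent.H9.NW

open Finset
open Pool.Agent.H25 Pool.Agent.H25.NM

set_option linter.unusedSectionVars false

section

variable {c b t u r : ℕ}

/-- The part of a vertex. -/
def part : Vx c b t u r → Option ((Fin c × Fin c) ⊕ Fin u)
  | Sum.inl (Sum.inl v) => some (Sum.inl (v.1, v.2.1))
  | Sum.inl (Sum.inr i) => some (Sum.inr i)
  | Sum.inr _ => none

/-- The side of a filling vertex. -/
def side : Vx c b t u r → Bool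
  | Sum.inr (Sum.inl _) => true
  | Sum.inr (Sum.inr _) => false
  | Sum.inl _ => true

variable {J : Finset (Fin r × Fin r)} {ρ : Pr c b → Fin t × Fin t}
  {x : SimpleGraph (Fin c × Fin b)}

theorem exists_transversal {Z : Finset (Vx c b t u r)}
    (hZ : (grX J ρ x).IsNClique (c * c + u) Z) (h3 : 3 ≤ c * c + u) :
    ∃ p : Fin c → Fin b, cq (tr p) ≤ x := by
  classical
  have hadj : ∀ z ∈ Z, ∀ z' ∈ Z, z ≠ z' → xadj J ρ x z z' := fun z hz z' hz' hne =>
    hZ.isClique hz hz' hne
  -- no filling vertices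
  have hleft : ∀ z ∈ Z, ∃ y, z = Sum.inl y := by
    by_contra hcon
    push Not at hcon
    obtain ⟨z₀, hz₀, hne₀⟩ := hcon
    obtain ⟨y₀, rfl⟩ : ∃ y, z₀ = Sum.inr y := by
      rcases z₀ with y | y
      · exact absurd rfl (hne₀ y)
      · exact ⟨y, rfl⟩
    have hright : ∀ z ∈ Z, ∃ y, z = Sum.inr y := by
      intro z hz
      rcases z with y | y
      · exfalso
        have := hadj _ hz _ hz₀ (by simp)
        rcases y with y | y <;> rcases y₀ with y₀ | y₀ <;> exact this
      · exact ⟨y, rfl⟩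
    have hinj : Set.InjOn (side : Vx c b t u r → Bool) Z := by
      intro z hz z' hz' hs
      by_contra hne
      have h := hadj z hz z' hz' hne
      obtain ⟨y, rfl⟩ := hright z hz
      obtain ⟨y', rfl⟩ := hright z' hz'
      rcases y with y | y <;> rcases y' with y' | y'
      · exact h
      · exact absurd hs (by simp [side])
      · exact absurd hs (by simp [side])
      · exact h
    have h1 := Finset.card_le_card_of_injOn (s := Z) (t := univ) side (fun _ _ => by simp) hinj
    rw [hZ.card_eq, Finset.card_univ, Fintype.card_bool] at h1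
    omega
  -- parts are used at most once
  have hinj : Set.InjOn (part : Vx c b t u r → _) Z := by
    intro z hz z' hz' hs
    by_contra hne
    have h := hadj z hz z' hz' hne
    obtain ⟨y, rfl⟩ := hleft z hz
    obtain ⟨y', rfl⟩ := hleft z' hz'
    rcases y with y | y <;> rcases y' with y' | y'
    · simp only [part, Option.some.injEq, Sum.inl.injEq, Prod.mk.injEq] at hs
      obtain ⟨e1, e2⟩ := hs
      rcases h with ⟨_, h2, _⟩ | ⟨h1, _⟩ | ⟨h1, h2, h3, h4⟩
      · exact h2 e2
      · exact h1 e1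
      · rcases h4 with ⟨h5, _⟩ | ⟨h5, _⟩
        · simp only [e1] at h5
          exact lt_irrefl _ h5
        · simp only [e1] at h5
          exact lt_irrefl _ h5
    · simp [part] at hs
    · simp [part] at hs
    · simp only [part, Option.some.injEq, Sum.inr.injEq] at hs
      exact h hs
  have himg : Z.image part = (univ : Finset ((Fin c × Fin c) ⊕ Fin u)).map
      ⟨some, Option.some_injective _⟩ := by
    refine Finset.eq_of_subset_of_card_le ?_ ?_
    · intro q hq
      obtain ⟨z, hz, rfl⟩ := Finset.mem_image.1 hq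
      obtain ⟨y, rfl⟩ := hleft z hz
      rw [Finset.mem_map]
      rcases y with y | y
      · exact ⟨_, Finset.mem_univ _, rfl⟩
      · exact ⟨_, Finset.mem_univ _, rfl⟩
    · rw [Finset.card_map, Finset.card_univ, Finset.card_image_of_injOn hinj, hZ.card_eq]
      simp
  have hex : ∀ α β : Fin c, ∃ (p : Fin b) (j : Fin t),
      (Sum.inl (Sum.inl (α, β, p, j)) : Vx c b t u r) ∈ Z := by
    intro α β
    have h1 : (some (Sum.inl (α, β)) : Option ((Fin c × Fin c) ⊕ Fin u)) ∈ Z.image part := by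
      rw [himg, Finset.mem_map]
      exact ⟨_, Finset.mem_univ _, rfl⟩
    obtain ⟨z, hz, hp⟩ := Finset.mem_image.1 h1
    obtain ⟨y, rfl⟩ := hleft z hz
    rcases y with ⟨α', β', p, j⟩ | y
    · simp only [part, Option.some.injEq, Sum.inl.injEq, Prod.mk.injEq] at hp
      obtain ⟨rfl, rfl⟩ := hp
      exact ⟨p, j, hz⟩
    · simp [part] at hp
  choose p j hpj using hex
  have hp : ∀ α β, p α β = p α α := by
    intro α β
    by_cases hαβ : β = α
    · rw [hαβ]
    · have h := hadj _ (hpj α β) _ (hpj α α) (by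
        intro h
        simp only [Sum.inl.injEq, Prod.mk.injEq] at h
        exact hαβ h.2.1)
      rcases h with ⟨_, _, h3⟩ | ⟨h1, _⟩ | ⟨h1, _⟩
      · exact h3
      · exact absurd rfl h1
      · exact absurd h1.symm hαβ
  refine ⟨fun α => p α α, ?_⟩
  rintro ⟨α, q⟩ ⟨β, q'⟩ ⟨hne, h1, h2⟩
  have e1 : p α α = q := mem_tr.1 h1
  have e2 : p β β = q' := mem_tr.1 h2
  have hαβ : α ≠ β := by
    rintro rfl
    exact hne (by rw [← e1, ← e2])
  have h := hadj _ (hpj α β) _ (hpj β α) (by
    intro h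
    simp only [Sum.inl.injEq, Prod.mk.injEq] at h
    exact hαβ h.1)
  rcases h with ⟨h1, _⟩ | ⟨_, h2⟩ | ⟨_, _, h3⟩
  · exact absurd h1 hαβ
  · exact absurd ⟨rfl, rfl⟩ h2
  · have h4 := h3.1
    simp only [hp α β, hp β α, e1, e2] at h4
    exact h4

/-- The place of the copy used by the planted clique. -/
def jj (ht : 0 < t) (ρ : Pr c b → Fin t × Fin t) (p : Fin c → Fin b) (α β : Fin c) : Fin t :=
  if h : α < β then (ρ ⟨((α, p α), (β, p β)), h⟩).1
  else if h : β < α then (ρ ⟨((β, p β), (α, p α)), h⟩).2 else ⟨0, ht⟩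

theorem planted (ht : 0 < t) (p : Fin c → Fin b) :
    ¬ (grX J ρ (cq (tr p)) : SimpleGraph (Vx c b t u r)).CliqueFree (c * c + u) := by
  classical
  intro hfree
  let φ : (Fin c × Fin c) ⊕ Fin u → Vx c b t u r := fun y => match y with
    | Sum.inl q => Sum.inl (Sum.inl (q.1, q.2, p q.1, jj ht ρ p q.1 q.2))
    | Sum.inr i => Sum.inl (Sum.inr i)
  have hφ : Function.Injective φ := by
    intro y y' h
    rcases y with ⟨α, β⟩ | i <;> rcases y' with ⟨α', β'⟩ | i'
    · simp only [φ, Sum.inl.injEq, Prod.mk.injEq] at h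
      rw [h.1, h.2.1]
    · simp [φ] at h
    · simp [φ] at h
    · simp only [φ, Sum.inl.injEq, Sum.inr.injEq] at h
      rw [h]
  refine hfree (univ.map ⟨φ, hφ⟩) ⟨?_, ?_⟩
  · intro z hz z' hz' hne
    rw [Finset.mem_coe, Finset.mem_map] at hz hz'
    obtain ⟨y, _, rfl⟩ := hz
    obtain ⟨y', _, rfl⟩ := hz'
    rcases y with ⟨α, β⟩ | i <;> rcases y' with ⟨α', β'⟩ | i'
    · show wadj ρ (cq (tr p)) (α, β, p α, jj ht ρ p α β) (α', β', p α', jj ht ρ p α' β')
      by_cases h1 : α = α'
      · subst h1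
        refine Or.inl ⟨rfl, ?_, rfl⟩
        rintro rfl
        exact hne rfl
      · by_cases h2 : α' = β ∧ β' = α
        · obtain ⟨rfl, rfl⟩ := h2
          refine Or.inr (Or.inr ⟨rfl, rfl, ⟨?_, mem_tr.2 rfl, mem_tr.2 rfl⟩, ?_⟩)
          · intro h
            exact h1 (Prod.ext_iff.1 h).1
          · rcases lt_or_gt_of_ne h1 with h3 | h3
            · refine Or.inl ⟨h3, ?_⟩
              show ρ ⟨((β', p β'), (α', p α')), h3⟩ = (jj ht ρ p β' α', jj ht ρ p α' β')
              unfold jj
              rw [dif_pos h3, dif_neg (not_lt_of_gt h3), dif_pos h3]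
            · refine Or.inr ⟨h3, ?_⟩
              show ρ ⟨((α', p α'), (β', p β')), h3⟩ = (jj ht ρ p α' β', jj ht ρ p β' α')
              unfold jj
              rw [dif_pos h3, dif_neg (not_lt_of_gt h3), dif_pos h3]
        · exact Or.inr (Or.inl ⟨h1, h2⟩)
    · trivial
    · trivial
    · show i ≠ i'
      rintro rfl
      exact hne rfl
  · rw [Finset.card_map, Finset.card_univ]
    simp

variable {n : ℕ}

/-- Cliques of the graphs of the frame. -/
theorem frame_cliqueFree (ι : Vx c b t u r ↪ Fin n) (h3 : 3 ≤ c * c + u)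
    (hx : x.CliqueFree c) : ((frame J ι).gr ρ x).CliqueFree (c * c + u) := by
  classical
  intro Z hZ
  have h1 : (((grX J ρ x).map ι) : SimpleGraph (Fin n)).IsNClique (c * c + u) Z := hZ
  rw [SimpleGraph.isNClique_map_iff (by omega)] at h1
  obtain ⟨Z', hZ', _⟩ := h1
  obtain ⟨p, hp⟩ := exists_transversal hZ' h3
  refine hx (tr p) ⟨?_, card_tr p⟩
  intro v hv v' hv' hne
  exact hp ⟨hne, hv, hv'⟩

theorem frame_planted (ι : Vx c b t u r ↪ Fin n) (h3 : 3 ≤ c * c + u) (ht : 0 < t)
    (p : Fin c → Fin b) : ¬ ((frame J ι).gr ρ (cq (tr p))).CliqueFree (c * c + u) := by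
  intro hfree
  refine planted (J := J) (ρ := ρ) ht p (u := u) fun Z hZ => ?_
  refine hfree (Z.map ι) ?_
  show ((grX J ρ (cq (tr p))).map ι).IsNClique (c * c + u) (Z.map ι)
  rw [SimpleGraph.isNClique_map_iff (by omega)]
  exact ⟨Z, hZ, rfl⟩

end

end Pool.Agent.H9.NW
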