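import Pool.Agent.H9.NW.Cliq

/-!
The number of edges of the concrete graphs.
-/

namespace Pool.Agent.H9.NW

open Finset
open Pool.Agent.H25 Pool.Agent.H25.NM

set_option linter.unusedSectionVars false

section

variable {c b t u r : ℕ}

theorem grX_bot (J : Finset (Fin r × Fin r)) (ρ ρ' : Pr c b → Fin t × Fin t) :
    (grX J ρ ⊥ : SimpleGraph (Vx c b t u r)) = grX J ρ' ⊥ := by
  have key : ∀ (ρ ρ' : Pr c b → Fin t × Fin t) (v v' : Fin c × Fin c × Fin b × Fin t),
      wadj ρ ⊥ v v' → wadj ρ' ⊥ v v' := by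
    intro ρ ρ' v v' h
    rcases h with h | h | ⟨_, _, h, _⟩
    · exact Or.inl h
    · exact Or.inr (Or.inl h)
    · exact absurd h (by simp)
  ext y z
  rcases y with (v | i) | (i | i) <;> rcases z with (v' | i') | (i' | i')
  · exact ⟨key ρ ρ' v v', key ρ' ρ v v'⟩
  all_goals exact Iff.rfl

theorem edgeSet_split (J : Finset (Fin r × Fin r)) (ρ : Pr c b → Fin t × Fin t)
    (x : SimpleGraph (Fin c × Fin b)) :
    (grX J ρ x : SimpleGraph (Vx c b t u r)).edgeSet = (grX ∅ ρ x).edgeSet ∪
      (fun q : Fin r × Fin r => s(Sum.inr (Sum.inl q.1), Sum.inr (Sum.inr q.2))) '' J := by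
  ext a
  induction a using Sym2.ind with
  | _ y z =>
    rw [Set.mem_union, SimpleGraph.mem_edgeSet, SimpleGraph.mem_edgeSet, Set.mem_image]
    constructor
    · intro h
      rcases y with (v | i) | (i | i) <;> rcases z with (v' | i') | (i' | i')
      case inr.inl.inr.inr => exact Or.inr ⟨(i, i'), h, rfl⟩
      case inr.inr.inr.inl => exact Or.inr ⟨(i', i), h, Sym2.eq_swap⟩
      all_goals exact Or.inl h
    · rintro (h | ⟨q, hq, h⟩)
      · rcases y with (v | i) | (i | i) <;> rcases z with (v' | i') | (i' | i')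
        case inr.inl.inr.inr => exact absurd h (Finset.notMem_empty _)
        case inr.inr.inr.inl => exact absurd h (Finset.notMem_empty _)
        all_goals exact h
      · rw [Sym2.eq_iff] at h
        rcases h with ⟨h1, h2⟩ | ⟨h1, h2⟩
        · subst h1
          subst h2
          exact hq
        · subst h1
          subst h2
          exact hq

theorem ncard_split (J : Finset (Fin r × Fin r)) (ρ : Pr c b → Fin t × Fin t)
    (x : SimpleGraph (Fin c × Fin b)) :
    (grX J ρ x : SimpleGraph (Vx c b t u r)).edgeSet.ncard =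
      (grX ∅ ρ x : SimpleGraph (Vx c b t u r)).edgeSet.ncard + J.card := by
  classical
  rw [edgeSet_split, Set.ncard_union_eq ?_ (Set.toFinite _) (Set.toFinite _),
    Set.ncard_image_of_injective _ ?_, Set.ncard_coe_finset]
  · intro q q' h
    rw [Sym2.eq_iff] at h
    rcases h with ⟨h1, h2⟩ | ⟨h1, h2⟩
    · exact Prod.ext (Sum.inl.inj (Sum.inr.inj h1)) (Sum.inr.inj (Sum.inr.inj h2))
    · exact absurd (Sum.inr.inj h1) (by simp)
  · rw [Set.disjoint_left]
    rintro a ha ⟨q, _, rfl⟩
    exact absurd ha (Finset.notMem_empty q)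

theorem ncard_core (ρ : Pr c b → Fin t × Fin t) (x : SimpleGraph (Fin c × Fin b)) :
    (grX ∅ ρ x : SimpleGraph (Vx c b t u r)).edgeSet.ncard ≤ (c * (c * (b * t)) + u) ^ 2 := by
  classical
  let Y := (Fin c × Fin c × Fin b × Fin t) ⊕ Fin u
  have h1 : (grX ∅ ρ x : SimpleGraph (Vx c b t u r)).edgeSet ⊆
      (fun q : Y × Y => s(Sum.inl q.1, Sum.inl q.2)) '' Set.univ := by
    intro a ha
    induction a using Sym2.ind with
    | _ y z =>
      rw [SimpleGraph.mem_edgeSet] at ha
      rcases y with y | i <;> rcases z with z | i'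
      · exact ⟨(y, z), Set.mem_univ _, rfl⟩
      · exfalso
        rcases y with y | y <;> rcases i' with i' | i' <;> exact ha
      · exfalso
        rcases z with z | z <;> rcases i with i | i <;> exact ha
      · exfalso
        rcases i with i | i <;> rcases i' with i' | i'
        · exact ha
        · exact absurd ha (Finset.notMem_empty _)
        · exact absurd ha (Finset.notMem_empty _)
        · exact ha
  refine (Set.ncard_le_ncard h1 (Set.toFinite _)).trans ((Set.ncard_image_le (Set.toFinite _)).trans ?_)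
  rw [Set.ncard_univ, Nat.card_eq_fintype_card, Fintype.card_prod, sq]
  have : Fintype.card Y = c * (c * (b * t)) + u := by
    simp [Y]
  rw [this]

/-- Choice of the filling. -/
theorem exists_filling {a : ℕ} (h1 : (c * (c * (b * t)) + u) ^ 2 ≤ a) (h2 : a ≤ r * r)
    (ht : 0 < t) :
    ∃ J : Finset (Fin r × Fin r), ∀ ρ : Pr c b → Fin t × Fin t,
      (grX J ρ ⊥ : SimpleGraph (Vx c b t u r)).edgeSet.ncard = a := by
  classical
  let ρ₀ : Pr c b → Fin t × Fin t := fun _ => (⟨0, ht⟩, ⟨0, ht⟩)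
  have hcore := ncard_core (u := u) (r := r) ρ₀ ⊥
  set e₀ := (grX ∅ ρ₀ ⊥ : SimpleGraph (Vx c b t u r)).edgeSet.ncard with he₀
  have hle : a - e₀ ≤ (univ : Finset (Fin r × Fin r)).card := by
    rw [Finset.card_univ, Fintype.card_prod, Fintype.card_fin]
    omega
  obtain ⟨J, _, hJ⟩ := Finset.exists_subset_card_eq hle
  refine ⟨J, fun ρ => ?_⟩
  rw [grX_bot J ρ ρ₀, ncard_split, ← he₀, hJ]
  omega

variable {n : ℕ}

/-- The graphs of the frame have `a` to `a + card` edges. -/
theorem frame_edges {J : Finset (Fin r × Fin r)} (ι : Vx c b t u r ↪ Fin n) {a : ℕ}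
    (hJ : ∀ ρ : Pr c b → Fin t × Fin t,
      (grX J ρ ⊥ : SimpleGraph (Vx c b t u r)).edgeSet.ncard = a)
    (ρ : Pr c b → Fin t × Fin t) (x : SimpleGraph (Fin c × Fin b)) :
    a ≤ ((frame J ι).gr ρ x).edgeSet.ncard ∧
      ((frame J ι).gr ρ x).edgeSet.ncard ≤ a + Fintype.card (Pr c b) := by
  classical
  have h0 : ((frame J ι).gr ρ ⊥).edgeSet.ncard = a := by
    show ((grX J ρ ⊥).map ι).edgeSet.ncard = a
    rw [SimpleGraph.edgeSet_map, Set.ncard_image_of_injective _ (Function.Embedding.injective _)]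
    exact hJ ρ
  have hsub1 : ((frame J ι).gr ρ ⊥).edgeSet ⊆ ((frame J ι).gr ρ x).edgeSet := by
    intro e he
    by_cases hh : ∃ q, e = (frame J ι).hid q (ρ q)
    · obtain ⟨q, rfl⟩ := hh
      exact absurd ((frame J ι).h1 ρ ⊥ q |>.1 he) (by simp)
    · push Not at hh
      exact (frame J ι).h2 ρ _ _ e hh he
  have hsub2 : ((frame J ι).gr ρ x).edgeSet ⊆ ((frame J ι).gr ρ ⊥).edgeSet ∪
      (fun q : Pr c b => (frame J ι).hid q (ρ q)) '' Set.univ := by
    intro e he
    by_cases hh : ∃ q, e = (frame J ι).hid q (ρ q)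
    · obtain ⟨q, rfl⟩ := hh
      exact Or.inr ⟨q, Set.mem_univ _, rfl⟩
    · push Not at hh
      exact Or.inl ((frame J ι).h2 ρ _ _ e hh he)
  constructor
  · rw [← h0]
    exact Set.ncard_le_ncard hsub1 (Set.toFinite _)
  · refine (Set.ncard_le_ncard hsub2 (Set.toFinite _)).trans ((Set.ncard_union_le _ _).trans ?_)
    rw [h0]
    refine Nat.add_le_add_left ((Set.ncard_image_le (Set.toFinite _)).trans ?_) _
    rw [Set.ncard_univ, Nat.card_eq_fintype_card]

end

end Pool.Agent.H9.NW
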