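import Pool.Agent.H9.NW.Hide
import Pool.Agent.H25.NM.Approx
import Pool.Agent.H25.NM.Planted

/-!
The concrete embedding: transversal `c`-cliques on `Fin c × Fin b` become `c ^ 2 + u` cliques.
-/

namespace Pool.Agent.H9.NW

open Finset
open Pool.Agent.H25 Pool.Agent.H25.NM

set_option linter.unusedSectionVars false

/-- Pairs of vertices of `Fin c × Fin b` in different classes. -/
abbrev Pr (c b : ℕ) : Type :=
  {e : (Fin c × Fin b) × (Fin c × Fin b) // e.1.1 < e.2.1}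

/-- Vertices: copies of the vertices of `Fin c × Fin b`, common neighbours, filling. -/
abbrev Vx (c b t u r : ℕ) : Type :=
  ((Fin c × Fin c × Fin b × Fin t) ⊕ Fin u) ⊕ (Fin r ⊕ Fin r)

section

variable {c b t u r : ℕ}

/-- The hidden pair. -/
def hadj (ρ : Pr c b → Fin t × Fin t) (x : SimpleGraph (Fin c × Fin b))
    (v v' : Fin c × Fin b) (j j' : Fin t) : Prop :=
  x.Adj v v' ∧ ((∃ h : v.1 < v'.1, ρ ⟨(v, v'), h⟩ = (j, j')) ∨
    ∃ h : v'.1 < v.1, ρ ⟨(v', v), h⟩ = (j', j))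

theorem hadj_symm {ρ : Pr c b → Fin t × Fin t} {x : SimpleGraph (Fin c × Fin b)}
    {v v' : Fin c × Fin b} {j j' : Fin t} (h : hadj ρ x v v' j j') : hadj ρ x v' v j' j :=
  ⟨h.1.symm, h.2.symm⟩

/-- Adjacency of two copies. -/
def wadj (ρ : Pr c b → Fin t × Fin t) (x : SimpleGraph (Fin c × Fin b))
    (v v' : Fin c × Fin c × Fin b × Fin t) : Prop :=
  (v.1 = v'.1 ∧ v.2.1 ≠ v'.2.1 ∧ v.2.2.1 = v'.2.2.1) ∨
  (v.1 ≠ v'.1 ∧ ¬ (v'.1 = v.2.1 ∧ v'.2.1 = v.1)) ∨
  (v'.1 = v.2.1 ∧ v'.2.1 = v.1 ∧ hadj ρ x (v.1, v.2.2.1) (v'.1, v'.2.2.1) v.2.2.2 v'.2.2.2)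

theorem wadj_symm {ρ : Pr c b → Fin t × Fin t} {x : SimpleGraph (Fin c × Fin b)}
    {v v' : Fin c × Fin c × Fin b × Fin t} (h : wadj ρ x v v') : wadj ρ x v' v := by
  rcases h with ⟨h1, h2, h3⟩ | ⟨h1, h2⟩ | ⟨h1, h2, h3⟩
  · exact Or.inl ⟨h1.symm, h2.symm, h3.symm⟩
  · exact Or.inr (Or.inl ⟨h1.symm, fun h => h2 ⟨h.2.symm, h.1.symm⟩⟩)
  · exact Or.inr (Or.inr ⟨h2.symm, h1.symm, hadj_symm h3⟩)

theorem not_wadj_self {ρ : Pr c b → Fin t × Fin t} {x : SimpleGraph (Fin c × Fin b)}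
    {v : Fin c × Fin c × Fin b × Fin t} : ¬ wadj ρ x v v := by
  rintro (⟨_, h2, _⟩ | ⟨h1, _⟩ | ⟨_, _, h3⟩)
  · exact h2 rfl
  · exact h1 rfl
  · exact h3.1.ne rfl

/-- Adjacency. -/
def xadj (J : Finset (Fin r × Fin r)) (ρ : Pr c b → Fin t × Fin t)
    (x : SimpleGraph (Fin c × Fin b)) : Vx c b t u r → Vx c b t u r → Prop
  | Sum.inl (Sum.inl v), Sum.inl (Sum.inl v') => wadj ρ x v v'
  | Sum.inl (Sum.inl _), Sum.inl (Sum.inr _) => True
  | Sum.inl (Sum.inr _), Sum.inl (Sum.inl _) => True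
  | Sum.inl (Sum.inr i), Sum.inl (Sum.inr i') => i ≠ i'
  | Sum.inr (Sum.inl i), Sum.inr (Sum.inr i') => (i, i') ∈ J
  | Sum.inr (Sum.inr i), Sum.inr (Sum.inl i') => (i', i) ∈ J
  | _, _ => False

/-- The graph. -/
def grX (J : Finset (Fin r × Fin r)) (ρ : Pr c b → Fin t × Fin t)
    (x : SimpleGraph (Fin c × Fin b)) : SimpleGraph (Vx c b t u r) where
  Adj := xadj J ρ x
  symm := ⟨by
    rintro ((v | i) | (i | i)) ((v' | i') | (i' | i')) h
    all_goals first
      | exact wadj_symm h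
      | exact h.symm
      | exact h⟩
  loopless := ⟨by
    rintro ((v | i) | (i | i)) h
    · exact not_wadj_self h
    · exact h rfl
    · exact h
    · exact h⟩

theorem wadj_update {ρ : Pr c b → Fin t × Fin t} {x : SimpleGraph (Fin c × Fin b)} {e : Pr c b}
    (he : ¬ x.Adj e.1.1 e.1.2) (s : Fin t × Fin t) (v v' : Fin c × Fin c × Fin b × Fin t) :
    wadj (Function.update ρ e s) x v v' ↔ wadj ρ x v v' := by
  have key : ∀ (w w' : Fin c × Fin b) (j j' : Fin t),
      hadj (Function.update ρ e s) x w w' j j' ↔ hadj ρ x w w' j j' := by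
    intro w w' j j'
    unfold hadj
    refine and_congr_right fun hx => or_congr ?_ ?_
    · refine exists_congr fun h => ?_
      rw [Function.update_of_ne]
      intro heq
      rw [← heq] at he
      exact he hx
    · refine exists_congr fun h => ?_
      rw [Function.update_of_ne]
      intro heq
      rw [← heq] at he
      exact he hx.symm
  unfold wadj
  rw [key]

variable {n : ℕ}

/-- The frame. -/
def frame (J : Finset (Fin r × Fin r)) (ι : Vx c b t u r ↪ Fin n) :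
    Frame (Fin c × Fin b) (Pr c b) (Fin t × Fin t) n where
  ends := fun e => e.1
  ne := fun e h => by
    have := e.2
    rw [h] at this
    exact lt_irrefl _ this
  gr := fun ρ x => (grX J ρ x).map ι
  hid := fun e s => s(ι (Sum.inl (Sum.inl (e.1.1.1, e.1.2.1, e.1.1.2, s.1))),
    ι (Sum.inl (Sum.inl (e.1.2.1, e.1.1.1, e.1.2.2, s.2))))
  h1 := by
    intro ρ x e
    rw [SimpleGraph.mem_edgeSet, SimpleGraph.map_adj_apply]
    show wadj ρ x _ _ ↔ _
    have hlt := e.2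
    constructor
    · rintro (⟨h1, _, _⟩ | ⟨_, h2⟩ | ⟨_, _, h3⟩)
      · exact absurd h1 hlt.ne
      · exact absurd ⟨rfl, rfl⟩ h2
      · exact h3.1
    · intro h
      exact Or.inr (Or.inr ⟨rfl, rfl, h, Or.inl ⟨hlt, rfl⟩⟩)
  h2 := by
    intro ρ x x' a ha hax
    induction a using Sym2.ind with
    | _ y z =>
      rw [SimpleGraph.mem_edgeSet, SimpleGraph.map_adj] at hax ⊢
      obtain ⟨y', z', h, rfl, rfl⟩ := hax
      refine ⟨y', z', ?_, rfl, rfl⟩
      rcases y' with (v | i) | (i | i) <;> rcases z' with (v' | i') | (i' | i')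
      · rcases h with h | h | ⟨h1, h2, h3, h4⟩
        · exact Or.inl h
        · exact Or.inr (Or.inl h)
        · exfalso
          have e1 : v = (v.1, v'.1, v.2.2.1, v.2.2.2) := by rw [h1]
          have e2 : v' = (v'.1, v.1, v'.2.2.1, v'.2.2.2) := by rw [← h2]
          rcases h4 with ⟨h5, h6⟩ | ⟨h5, h6⟩
          · refine ha ⟨((v.1, v.2.2.1), (v'.1, v'.2.2.1)), h5⟩ ?_
            rw [h6]
            exact congrArg₂ (fun y z => s(ι (Sum.inl (Sum.inl y)), ι (Sum.inl (Sum.inl z)))) e1 e2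
          · refine ha ⟨((v'.1, v'.2.2.1), (v.1, v.2.2.1)), h5⟩ ?_
            rw [h6, Sym2.eq_swap]
            exact congrArg₂ (fun y z => s(ι (Sum.inl (Sum.inl y)), ι (Sum.inl (Sum.inl z)))) e2 e1
      all_goals exact h
  h3 := by
    intro ρ x e s he
    congr 1
    ext y z
    rcases y with (v | i) | (i | i) <;> rcases z with (v' | i') | (i' | i')
    · exact wadj_update he s v v'
    all_goals exact Iff.rfl
  h4 := by
    intro e s e' s' h
    rw [Sym2.eq_iff] at h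
    have hlt := e.2
    have hlt' := e'.2
    rcases h with ⟨h1, h2⟩ | ⟨h1, h2⟩
    · have g1 := Sum.inl.inj (Sum.inl.inj (ι.injective h1))
      have g2 := Sum.inl.inj (Sum.inl.inj (ι.injective h2))
      simp only [Prod.mk.injEq] at g1 g2
      refine ⟨Subtype.ext (Prod.ext (Prod.ext g1.1 g1.2.2.1) (Prod.ext g2.1 g2.2.2.1)),
        Prod.ext g1.2.2.2 g2.2.2.2⟩
    · exfalso
      have g1 := Sum.inl.inj (Sum.inl.inj (ι.injective h1))
      have g2 := Sum.inl.inj (Sum.inl.inj (ι.injective h2))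
      simp only [Prod.mk.injEq] at g1 g2
      rw [g1.1, g1.2.1] at hlt
      exact lt_irrefl _ (hlt.trans hlt')

end

end Pool.Agent.H9.NW
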