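import Pool.Agent.H9.NW.Core
import Pool.Agent.H25.NP.Main

/-!
The choice of the parameters.
-/

namespace Pool.Agent.H9.NW

open Finset
open Pool.Agent.H25 Pool.Agent.H25.NM

theorem main {n L l k a w s : ℕ} (hL : 1 ≤ L) (hLl : L ≤ l) (hnL : n ≤ 2 ^ L)
    (hk : 2 ^ 16 * l ^ 4 * L ^ 2 ≤ k) (hka : 2 * k ^ 2 ≤ a) (han : 9 * a ≤ n ^ 2)
    (hs : s ≤ 2 ^ l) (C : Circuit n s) (out : Fin s)
    (hsound : ∀ G : SimpleGraph (Fin n), a ≤ G.edgeSet.ncard →
      G.edgeSet.ncard ≤ a + 2 ^ 38 * l ^ 8 * L ^ 4 → G.CliqueFree k → ¬ C.Proof G univ out)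
    (hcomp : ∀ G : SimpleGraph (Fin n), a ≤ G.edgeSet.ncard →
      G.edgeSet.ncard ≤ a + 2 ^ 38 * l ^ 8 * L ^ 4 → ¬ G.CliqueFree k →
      ∃ N : Finset (Sym2 (Fin n)), N.card ≤ w ∧ C.Proof G N out) :
    a < 2 ^ 60 * l ^ 12 * L ^ 6 * (w + 1) := by
  by_contra hcon
  push Not at hcon
  have hl : 1 ≤ l := hL.trans hLl
  set c := 2 ^ 8 * l ^ 2 * L with hc
  set b := 2 ^ 11 * l ^ 2 * L with hb
  set A := 2 ^ 27 * l ^ 6 * L ^ 3 with hA
  set S := Nat.sqrt a with hSdef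
  set t := S / (4 * A) with htdef
  have hA1 : 1 ≤ A := by
    rw [hA]
    exact Nat.one_le_iff_ne_zero.2 (by positivity)
  have hcA : ∀ y, c * (c * (b * y)) = A * y := by
    intro y
    rw [hc, hb, hA]
    ring
  have hS1 : S * S ≤ a := Nat.sqrt_le a
  have hS2 : a < (S + 1) * (S + 1) := Nat.lt_succ_sqrt a
  have hA2 : 64 * (A * A) * (w + 1) ≤ a := by
    refine le_trans (le_of_eq ?_) hcon
    rw [hA]
    ring
  have hwA : 64 * (A * A) * 1 ≤ 64 * (A * A) * (w + 1) := Nat.mul_le_mul_left _ (by omega)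
  -- the number of copies
  have ht1 : 4 * A * t ≤ S := Nat.mul_div_le _ _
  have ht2 : S < 4 * A * (t + 1) := Nat.lt_mul_div_succ _ (by omega)
  have ht3 : a < 16 * (A * A) * ((t + 1) * (t + 1)) := by
    calc a < (S + 1) * (S + 1) := hS2
      _ ≤ (4 * A * (t + 1)) * (4 * A * (t + 1)) := Nat.mul_le_mul ht2 ht2
      _ = 16 * (A * A) * ((t + 1) * (t + 1)) := by ring
  have ht : 0 < t := by
    rcases Nat.eq_zero_or_pos t with h | h
    · exfalso
      rw [h] at ht3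
      have : 0 < A * A := Nat.mul_pos hA1 hA1
      omega
    · exact h
  have hw : 2 * w ≤ t * t := by
    by_contra hlt
    push Not at hlt
    have h1 : (t + 1) * (t + 1) ≤ 4 * (w + 1) := by nlinarith
    have h2 : 16 * (A * A) * ((t + 1) * (t + 1)) ≤ 16 * (A * A) * (4 * (w + 1)) :=
      Nat.mul_le_mul_left _ h1
    have h3 : 16 * (A * A) * (4 * (w + 1)) = 64 * (A * A) * (w + 1) := by ring
    omega
  have hSbig : 100 ≤ S := by
    by_contra hlt
    push Not at hlt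
    have h1 : (S + 1) * (S + 1) ≤ 100 * 100 := Nat.mul_le_mul (by omega) (by omega)
    have h2 : 2 ^ 27 ≤ A := by
      rw [hA, mul_assoc]
      exact Nat.le_mul_of_pos_right _ (by positivity)
    have h3 : 2 ^ 27 * 2 ^ 27 ≤ A * A := Nat.mul_le_mul h2 h2
    norm_num at h3
    omega
  have hkS : 100 * k < 71 * (S + 1) := by
    by_contra hlt
    push Not at hlt
    have h1 : (71 * (S + 1)) * (71 * (S + 1)) ≤ (100 * k) * (100 * k) := Nat.mul_le_mul hlt hlt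
    have h2 : 2 * (k * k) ≤ a := by
      rw [← sq]
      exact hka
    nlinarith
  have hnS : 3 * S ≤ n := by
    by_contra hlt
    push Not at hlt
    have h1 : n * n < (3 * S) * (3 * S) := Nat.mul_self_lt_mul_self hlt
    have h2 : n ^ 2 = n * n := sq n
    nlinarith
  have hck : c * c ≤ k := by
    refine le_trans (le_of_eq ?_) hk
    rw [hc]
    ring
  obtain ⟨u, hu⟩ : ∃ u, k = c * c + u := Nat.exists_eq_add_of_le hck
  -- sizes
  set Z : ℕ := l ^ 4 * L ^ 2 with hZ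
  have hZ1 : 1 ≤ Z := Nat.one_le_iff_ne_zero.2 (by positivity)
  have hcb : c * b = 2 ^ 19 * Z := by
    rw [hc, hb, hZ]
    ring
  have hlZ : l ≤ Z := by
    calc l = l ^ 1 * 1 ^ 2 := by ring
      _ ≤ l ^ 4 * L ^ 2 := Nat.mul_le_mul (Nat.pow_le_pow_right hl (by norm_num))
          (Nat.pow_le_pow_left hL 2)
  have hcb2 : 4 * (c * b) ≤ n := by
    by_contra hlt
    push Not at hlt
    have h1 : n * n < (4 * (c * b)) * (4 * (c * b)) := Nat.mul_self_lt_mul_self hlt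
    have h2 : n ^ 2 = n * n := sq n
    have h3 : (4 * (c * b)) * (4 * (c * b)) ≤ 64 * (A * A) * 1 := by
      rw [hcb, hA]
      have : 4 * (2 ^ 19 * Z) ≤ 2 ^ 27 * l ^ 6 * L ^ 3 := by
        rw [hZ]
        calc 4 * (2 ^ 19 * (l ^ 4 * L ^ 2)) = 2 ^ 21 * (l ^ 4 * L ^ 2) := by ring
          _ ≤ 2 ^ 27 * (l ^ 6 * L ^ 3) := Nat.mul_le_mul (by norm_num)
              (Nat.mul_le_mul (Nat.pow_le_pow_right hl (by norm_num))
                (Nat.pow_le_pow_right hL (by norm_num)))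
          _ = _ := by ring
      calc _ ≤ (2 ^ 27 * l ^ 6 * L ^ 3) * (2 ^ 27 * l ^ 6 * L ^ 3) := Nat.mul_le_mul this this
        _ ≤ _ := by omega
    omega
  have hcb3 : c * b + 1 ≤ 2 ^ L := by
    have : 1 ≤ c * b := by
      rw [hcb]
      omega
    omega
  have hl2 : 2 ≤ l := by
    by_contra hlt
    have h1 : L = 1 := by omega
    rw [h1] at hcb3
    rw [hcb] at hcb3
    omega
  have hKs : (c * b * (c * b) + 2 ^ l) * (c * b * (c * b) + 2 ^ l + 1) ≤ 2 ^ (4 * l) := by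
    have h1 : c * b * (c * b) ≤ 2 ^ (2 * l) / 16 := by
      rw [Nat.le_div_iff_mul_le (by norm_num)]
      calc c * b * (c * b) * 16 = (4 * (c * b)) * (4 * (c * b)) := by ring
        _ ≤ n * n := Nat.mul_le_mul hcb2 hcb2
        _ ≤ 2 ^ L * 2 ^ L := Nat.mul_le_mul hnL hnL
        _ ≤ 2 ^ l * 2 ^ l := Nat.mul_le_mul (Nat.pow_le_pow_right (by norm_num) hLl)
            (Nat.pow_le_pow_right (by norm_num) hLl)
        _ = 2 ^ (2 * l) := by rw [two_mul, pow_add]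
    have h2 : 2 ^ 19 ≤ 2 ^ l := by
      have h3 : 2 ^ 19 * 1 ≤ 2 ^ 19 * Z := Nat.mul_le_mul_left _ hZ1
      have h4 : 2 ^ L ≤ 2 ^ l := Nat.pow_le_pow_right (by norm_num) hLl
      omega
    have h3 : 2 ^ (2 * l) = 2 ^ l * 2 ^ l := by rw [two_mul, pow_add]
    have h4 : 2 ^ 19 * 2 ^ l ≤ 2 ^ l * 2 ^ l := Nat.mul_le_mul_right _ h2
    have h5 : c * b * (c * b) + 2 ^ l + 1 ≤ 2 ^ (2 * l) := by
      rw [h3]
      rw [h3] at h1
      have := Nat.div_mul_le_self (2 ^ l * 2 ^ l) 16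
      omega
    calc _ ≤ 2 ^ (2 * l) * 2 ^ (2 * l) := Nat.mul_le_mul (by omega) h5
      _ = 2 ^ (4 * l) := by
          rw [← pow_add]
          congr 1
          ring
  have : NeZero (16 * l ^ 2) := ⟨by positivity⟩
  refine core (c := c) (b := b) (t := t) (u := u) (r := S + 1) (a := a) (w := w) (s := s)
    (Q := 16 * l ^ 2) (m := 4 * l) (h := 16 * (l * L)) (by omega) ?_ ?_ ?_ ht ?_ ?_ ?_ hS2.le hw ?_
    (S := 2 ^ (4 * l)) ?_ ?_ ?_ C out ?_ ?_
  · have : 1 ≤ l * L := Nat.one_le_iff_ne_zero.2 (by positivity)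
    omega
  · exact le_of_eq (by ring)
  · rw [hb]
    exact le_of_eq (by ring)
  · rw [hcA]
    have h1 : 4 * (A * t) ≤ S := by
      calc 4 * (A * t) = 4 * A * t := by ring
        _ ≤ S := ht1
    omega
  · have : 2 ^ 16 * 1 ≤ 2 ^ 16 * Z := Nat.mul_le_mul_left _ hZ1
    have h2 : c * c = 2 ^ 16 * Z := by
      rw [hc, hZ]
      ring
    omega
  · rw [hcA]
    have h1 : 4 * (A * t) ≤ S := by
      calc 4 * (A * t) = 4 * A * t := by ring
        _ ≤ S := ht1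
    have h2 : A * t + u ≤ S := by omega
    calc (A * t + u) ^ 2 ≤ S ^ 2 := Nat.pow_le_pow_left h2 2
      _ = S * S := sq S
      _ ≤ a := hS1
  · have h1 : 2 * (16 * l ^ 2) * (L + 1) + 1 ≤ c := by
      have h2 : 1 ≤ l ^ 2 * L := Nat.one_le_iff_ne_zero.2 (by positivity)
      calc 2 * (16 * l ^ 2) * (L + 1) + 1 ≤ 2 * (16 * l ^ 2) * (L + L) + l ^ 2 * L :=
            Nat.add_le_add (Nat.mul_le_mul_left _ (by omega)) h2
        _ = 65 * (l ^ 2 * L) := by ring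
        _ ≤ 2 ^ 8 * (l ^ 2 * L) := Nat.mul_le_mul_right _ (by norm_num)
        _ = c := by
            rw [hc]
            ring
    have h3 := NP.clique_count (n := 4 * (c * b)) (k := c) (l := L) (Q := 16 * l ^ 2)
      (Nat.one_le_iff_ne_zero.2 (by positivity)) (hcb2.trans hnL) h1
    have h4 : 1 ≤ c := by omega
    have h5 : 8 ≤ 2 * 4 ^ c := by
      calc 8 = 2 * 4 ^ 1 := rfl
        _ ≤ 2 * 4 ^ c := Nat.mul_le_mul_left _ (Nat.pow_le_pow_right (by norm_num) h4)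
    have h7 : ∀ y z : ℕ, 2 * (4 * y) ^ z = 2 * 4 ^ z * y ^ z := fun y z => by
      rw [mul_pow, mul_assoc]
    have h6 : 2 * (4 * (c * b)) ^ c = 2 * 4 ^ c * (c * b) ^ c := h7 _ _
    rw [h6] at h3
    exact le_trans (Nat.mul_le_mul_right _ (Nat.mul_le_mul_right _ h5)) h3
  · exact le_trans (Nat.mul_le_mul (by omega) (by omega)) hKs
  · -- the first error term
    have h1 : (4 * l + 1) ^ 2 ≤ 2 ^ (8 * l) := by
      have h2 : 4 * l + 1 ≤ 2 ^ (4 * l) := Nat.lt_two_pow_self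
      calc (4 * l + 1) ^ 2 ≤ (2 ^ (4 * l)) ^ 2 := Nat.pow_le_pow_left h2 2
        _ = 2 ^ (8 * l) := by
            rw [← pow_mul]
            congr 1
            ring
    calc 8 * (2 ^ (4 * l) * ((4 * l + 1) ^ 2 * 2 ^ (4 * l)))
        ≤ 2 ^ 3 * (2 ^ (4 * l) * (2 ^ (8 * l) * 2 ^ (4 * l))) :=
          Nat.mul_le_mul (by norm_num) (Nat.mul_le_mul_left _ (Nat.mul_le_mul_right _ h1))
      _ = 2 ^ (3 + (4 * l + (8 * l + 4 * l))) := by rw [pow_add, pow_add, pow_add]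
      _ ≤ 2 ^ (5 * (4 * l + 1)) := Nat.pow_le_pow_right (by norm_num) (by omega)
      _ = 32 ^ (4 * l + 1) := by
          rw [pow_mul]
          norm_num
  · -- the second error term
    have h1 : l * 1 ≤ l * L := Nat.mul_le_mul_left _ hL
    calc 8 * (2 ^ (4 * l) * (c * b + 1) ^ (4 * l))
        ≤ 2 ^ 3 * (2 ^ (4 * l) * (2 ^ L) ^ (4 * l)) :=
          Nat.mul_le_mul (by norm_num) (Nat.mul_le_mul_left _ (Nat.pow_le_pow_left hcb3 _))
      _ = 2 ^ (3 + (4 * l + 4 * (l * L))) := by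
          rw [← pow_mul, pow_add, pow_add]
          congr 3
          ring
      _ ≤ 2 ^ (16 * (l * L)) := Nat.pow_le_pow_right (by norm_num) (by omega)
  · intro G h1 h2 h3
    refine hsound G h1 (h2.trans (Nat.add_le_add_left (le_of_eq ?_) _)) (by rw [hu]; exact h3)
    rw [hcb, hZ]
    ring
  · intro G h1 h2 h3
    refine hcomp G h1 (h2.trans (Nat.add_le_add_left (le_of_eq ?_) _)) (by rw [hu]; exact h3)
    rw [hcb, hZ]
    ring

end Pool.Agent.H9.NW
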